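import Pool.Agent.Helper84.TL.Defs

/-!
# TL-L: the average number of 4-cycles of a random set of symbols
-/

set_option autoImplicit false

namespace Pool.Agent.Helper84.TL

open Finset Pool.Agent.Lead.TB

/-! ## Subsets containing a given set -/

theorem h72_desc {N n j : ℕ} (hM : n ≤ 2 * (N - 1)) (hjN : j ≤ N) (z : ℕ) (hz : z + 1 ≤ j) :
    j.descFactorial (z + 1) * N * n ^ z ≤ j * (2 * j) ^ z * N.descFactorial (z + 1) := by
  induction z with
  | zero => simp [Nat.descFactorial]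
  | succ z ih =>
    have ih := ih (by omega)
    rw [Nat.descFactorial_succ j (z + 1), Nat.descFactorial_succ N (z + 1)]
    have h1 : (j - (z + 1)) * n ≤ 2 * j * (N - (z + 1)) := by
      obtain ⟨a, ha⟩ : ∃ a, j = (z + 1) + (a + 1) := ⟨j - (z + 1) - 1, by omega⟩
      obtain ⟨b, hb⟩ : ∃ b, N = j + b := ⟨N - j, by omega⟩
      have e1 : j - (z + 1) = a + 1 := by omega
      have e2 : N - (z + 1) = a + 1 + b := by omega
      have e3 : N - 1 = z + 1 + a + b := by omega
      rw [e1, e2]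
      rw [e3] at hM
      calc (a + 1) * n ≤ (a + 1) * (2 * (z + 1 + a + b)) := Nat.mul_le_mul_left _ hM
        _ ≤ 2 * j * (a + 1 + b) := by
          rw [ha]
          nlinarith [Nat.zero_le (z * b), Nat.zero_le (z * a), Nat.zero_le (a * b)]
    calc (j - (z + 1)) * j.descFactorial (z + 1) * N * n ^ (z + 1)
        = ((j - (z + 1)) * n) * (j.descFactorial (z + 1) * N * n ^ z) := by ring
      _ ≤ (2 * j * (N - (z + 1))) * (j * (2 * j) ^ z * N.descFactorial (z + 1)) :=
          Nat.mul_le_mul h1 ih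
      _ = j * (2 * j) ^ (z + 1) * ((N - (z + 1)) * N.descFactorial (z + 1)) := by ring

theorem h72_choose {N n j : ℕ} (hM : n ≤ 2 * (N - 1)) (hjN : j ≤ N) (z : ℕ) (hz : z + 1 ≤ j) :
    j.choose (z + 1) * N * n ^ z ≤ j * (2 * j) ^ z * N.choose (z + 1) := by
  have h := h72_desc hM hjN z hz
  rw [Nat.descFactorial_eq_factorial_mul_choose, Nat.descFactorial_eq_factorial_mul_choose] at h
  refine Nat.le_of_mul_le_mul_left ?_ (Nat.factorial_pos (z + 1))
  calc (z + 1).factorial * (j.choose (z + 1) * N * n ^ z)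
      = (z + 1).factorial * j.choose (z + 1) * N * n ^ z := by ring
    _ ≤ j * (2 * j) ^ z * ((z + 1).factorial * N.choose (z + 1)) := h
    _ = (z + 1).factorial * (j * (2 * j) ^ z * N.choose (z + 1)) := by ring

/-- The number of `j`-element subsets of `M` which contain `Z`. -/
def h72_F {n : ℕ} (M : Finset (Fin n)) (j : ℕ) (Z : Finset (Fin n)) : ℕ :=
  ((M.powersetCard j).filter fun Y => Z ⊆ Y).card

theorem h72_F_le {n : ℕ} (M Z : Finset (Fin n)) {j : ℕ} (hM : n ≤ 2 * (M.card - 1))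
    (hjM : j ≤ M.card) {z : ℕ} (hz : Z.card = z + 1) :
    h72_F M j Z * M.card * n ^ z ≤ M.card.choose j * j * (2 * j) ^ z := by
  by_cases h : Z ⊆ M ∧ z + 1 ≤ j
  · obtain ⟨hZM, hzj⟩ := h
    have hc : h72_F M j Z ≤ (M.card - (z + 1)).choose (j - (z + 1)) := by
      have h1 : ((M \ Z).powersetCard (j - (z + 1))).card =
          (M.card - (z + 1)).choose (j - (z + 1)) := by
        rw [card_powersetCard, card_sdiff_of_subset hZM, hz]
      rw [← h1]
      unfold h72_F
      refine Finset.card_le_card_of_injOn (fun Y => Y \ Z) ?_ ?_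
      · intro Y hY
        rw [mem_coe, mem_filter, mem_powersetCard] at hY
        obtain ⟨⟨hYM, hYj⟩, hZY⟩ := hY
        rw [mem_coe, mem_powersetCard]
        refine ⟨sdiff_subset_sdiff hYM subset_rfl, ?_⟩
        rw [card_sdiff_of_subset hZY, hYj, hz]
      · intro Y hY Y' hY' he
        rw [mem_coe, mem_filter] at hY hY'
        have he' : Y \ Z = Y' \ Z := he
        rw [← sdiff_union_of_subset hY.2, he', sdiff_union_of_subset hY'.2]
    have h2 : M.card.choose j * j.choose (z + 1) =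
        M.card.choose (z + 1) * (M.card - (z + 1)).choose (j - (z + 1)) :=
      Nat.choose_mul hzj
    have h3 := h72_choose hM hjM z hzj
    have hpos : 0 < M.card.choose (z + 1) := Nat.choose_pos (hzj.trans hjM)
    refine Nat.le_of_mul_le_mul_left ?_ hpos
    calc M.card.choose (z + 1) * (h72_F M j Z * M.card * n ^ z)
        ≤ M.card.choose (z + 1) *
          ((M.card - (z + 1)).choose (j - (z + 1)) * M.card * n ^ z) :=
          Nat.mul_le_mul_left _ (Nat.mul_le_mul_right _ (Nat.mul_le_mul_right _ hc))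
      _ = (M.card.choose (z + 1) * (M.card - (z + 1)).choose (j - (z + 1))) *
          (M.card * n ^ z) := by ring
      _ = M.card.choose j * (j.choose (z + 1) * M.card * n ^ z) := by rw [← h2]; ring
      _ ≤ M.card.choose j * (j * (2 * j) ^ z * M.card.choose (z + 1)) :=
          Nat.mul_le_mul_left _ h3
      _ = M.card.choose (z + 1) * (M.card.choose j * j * (2 * j) ^ z) := by ring
  · have h0 : h72_F M j Z = 0 := by
      unfold h72_F
      rw [card_eq_zero, filter_eq_empty_iff]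
      intro Y hY hZY
      rw [mem_powersetCard] at hY
      apply h
      refine ⟨hZY.trans hY.1, ?_⟩
      rw [← hz, ← hY.2]
      exact card_le_card hZY
    rw [h0]
    simp

/-! ## The symbol of a cell -/

open Classical in
/-- The symbol in row `r` and column `c`. -/
noncomputable def h72_sy {n : ℕ} (L : Fin n → Equiv.Perm (Fin n)) (r c : Fin n) : Fin n :=
  if h : ∃ s, L s r = c then h.choose else r

theorem h72_sy_spec {n : ℕ} {L : Fin n → Equiv.Perm (Fin n)} (hL : L ∈ ls n) (r c : Fin n) :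
    L (h72_sy L r c) r = c := by
  have hb : Function.Bijective fun s => L s r := by
    rw [← Finite.injective_iff_bijective]
    intro i j hij
    by_contra hne
    have hL' : ∀ i j, i ≠ j → ∀ r, L i r ≠ L j r := by
      have := hL
      simp [ls, fac] at this
      exact this
    exact hL' i j hne r hij
  have h : ∃ s, L s r = c := hb.2 c
  unfold h72_sy
  rw [dif_pos h]
  exact h.choose_spec

theorem h72_sy_eq {n : ℕ} {L : Fin n → Equiv.Perm (Fin n)} (hL : L ∈ ls n) {r c s : Fin n}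
    (h : L s r = c) : h72_sy L r c = s := by
  by_contra hne
  have hL' : ∀ i j, i ≠ j → ∀ r, L i r ≠ L j r := by
    have := hL
    simp [ls, fac] at this
    exact this
  exact hL' _ _ hne r ((h72_sy_spec hL r c).trans h.symm)

theorem h72_mem_sg {n : ℕ} {L : Fin n → Equiv.Perm (Fin n)} (hL : L ∈ ls n)
    {Y : Finset (Fin n)} {r c : Fin n} : c ∈ sg L Y r ↔ h72_sy L r c ∈ Y := by
  unfold sg
  rw [mem_image]
  constructor
  · rintro ⟨t, ht, h⟩
    rw [h72_sy_eq hL h]
    exact ht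
  · intro h
    exact ⟨_, h, h72_sy_spec hL r c⟩

/-! ## Sums over the subsets -/

theorem h72_sum_le {n : ℕ} (M : Finset (Fin n)) (j : ℕ) (p : Finset (Fin n) → Prop)
    [DecidablePred p] (Z : Finset (Fin n)) (hp : ∀ Y, p Y → Z ⊆ Y) :
    ∑ Y ∈ M.powersetCard j, (if p Y then 1 else 0) ≤ h72_F M j Z := by
  unfold h72_F
  rw [card_filter]
  refine Finset.sum_le_sum fun Y _ => ?_
  by_cases h : p Y
  · rw [if_pos h, if_pos (hp Y h)]
  · rw [if_neg h]
    exact Nat.zero_le _

theorem h72_sum_zero {n : ℕ} (M : Finset (Fin n)) (j : ℕ) (p : Finset (Fin n) → Prop)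
    [DecidablePred p] (hp : ∀ Y, ¬ p Y) :
    ∑ Y ∈ M.powersetCard j, (if p Y then 1 else 0) = 0 :=
  Finset.sum_eq_zero fun Y _ => if_neg (hp Y)

theorem h72_sum_mem {n : ℕ} {M Y : Finset (Fin n)} (h : Y ⊆ M) (f : Fin n → ℕ) :
    ∑ s ∈ Y, f s = ∑ s ∈ M, if s ∈ Y then f s else 0 := by
  rw [Finset.sum_ite_mem, Finset.inter_eq_right.2 h]

/-- Triples `{s, s₁, s₂}` with `s` different from the others. -/
theorem h72_three {n : ℕ} (M : Finset (Fin n)) {j : ℕ} (hM : n ≤ 2 * (M.card - 1))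
    (hjM : j ≤ M.card) {s s₁ s₂ : Fin n} (h1 : s₁ ≠ s) (h2 : s₂ ≠ s) :
    h72_F M j {s, s₁, s₂} * M.card * n ^ 2 ≤
      M.card.choose j * j * (4 * j ^ 2 + 2 * j * n) := by
  by_cases h : s₁ = s₂
  · subst h
    have hc : ({s, s₁, s₁} : Finset (Fin n)).card = 1 + 1 := by
      rw [Finset.insert_eq_of_mem (Finset.mem_singleton_self s₁), Finset.card_pair h1.symm]
    have := h72_F_le M _ hM hjM hc
    calc h72_F M j {s, s₁, s₁} * M.card * n ^ 2
        = (h72_F M j {s, s₁, s₁} * M.card * n ^ 1) * n := by ring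
      _ ≤ (M.card.choose j * j * (2 * j) ^ 1) * n := Nat.mul_le_mul_right _ this
      _ ≤ M.card.choose j * j * (4 * j ^ 2 + 2 * j * n) := by
        rw [mul_assoc (M.card.choose j * j)]
        refine Nat.mul_le_mul_left _ ?_
        rw [pow_one]
        exact Nat.le_add_left _ _
  · have hc : ({s, s₁, s₂} : Finset (Fin n)).card = 2 + 1 := by
      rw [Finset.card_eq_three.2 ⟨s, s₁, s₂, h1.symm, h2.symm, h, rfl⟩]
    have := h72_F_le M _ hM hjM hc
    refine this.trans ?_
    refine Nat.mul_le_mul_left _ ?_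
    calc (2 * j) ^ 2 = 4 * j ^ 2 := by ring
      _ ≤ _ := Nat.le_add_right _ _

theorem h72_key_B {n : ℕ} {L : Fin n → Equiv.Perm (Fin n)} (hL : L ∈ ls n)
    (M : Finset (Fin n)) (hM : n ≤ 2 * (M.card - 1)) {j : ℕ} (hj : 1 ≤ j) (hjM : j ≤ M.card) :
    ∑ Y ∈ M.powersetCard j, ∑ s ∈ Y, ∑ v, Bv (sg L Y) (L s) v ≤
      M.card.choose j * j * (4 * j ^ 2 + 2 * j * n) := by
  have hMc : 0 < M.card := lt_of_lt_of_le hj hjM
  have hn : 0 < n := by
    obtain ⟨x, _⟩ := Finset.card_pos.1 hMc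
    exact x.pos
  set K := M.card.choose j * j * (4 * j ^ 2 + 2 * j * n) with hK
  have e1 : ∑ Y ∈ M.powersetCard j, ∑ s ∈ Y, ∑ v, Bv (sg L Y) (L s) v =
      ∑ s ∈ M, ∑ v : Fin n, ∑ x : Fin n, ∑ Y ∈ M.powersetCard j,
        if s ∈ Y ∧ x ≠ v ∧ h72_sy L v (L s x) ∈ Y ∧ h72_sy L x (L s v) ∈ Y then 1 else 0 := by
    have e2 : ∀ Y ∈ M.powersetCard j, ∑ s ∈ Y, ∑ v, Bv (sg L Y) (L s) v =
        ∑ s ∈ M, ∑ v : Fin n, ∑ x : Fin n,
        if s ∈ Y ∧ x ≠ v ∧ h72_sy L v (L s x) ∈ Y ∧ h72_sy L x (L s v) ∈ Y then 1 else 0 := by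
      intro Y hY
      rw [mem_powersetCard] at hY
      rw [h72_sum_mem hY.1]
      refine Finset.sum_congr rfl fun s _ => ?_
      by_cases hs : s ∈ Y
      · rw [if_pos hs]
        refine Finset.sum_congr rfl fun v _ => ?_
        unfold Bv
        rw [card_filter]
        refine Finset.sum_congr rfl fun x _ => ?_
        simp only [h72_mem_sg hL, hs, true_and]
      · rw [if_neg hs]
        simp [hs]
    rw [Finset.sum_congr rfl e2, Finset.sum_comm]
    refine Finset.sum_congr rfl fun s _ => ?_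
    rw [Finset.sum_comm]
    refine Finset.sum_congr rfl fun v _ => ?_
    rw [Finset.sum_comm]
  have e3 : ∀ s v x : Fin n, (∑ Y ∈ M.powersetCard j,
      if s ∈ Y ∧ x ≠ v ∧ h72_sy L v (L s x) ∈ Y ∧ h72_sy L x (L s v) ∈ Y then 1 else 0) *
      (M.card * n ^ 2) ≤ K := by
    intro s v x
    by_cases hx : x = v
    · rw [h72_sum_zero M j _ fun Y h => h.2.1 hx]
      simp
    · have h1 : h72_sy L v (L s x) ≠ s := by
        intro h
        have := h72_sy_spec hL v (L s x)
        rw [h] at this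
        exact hx ((L s).injective this).symm
      have h2 : h72_sy L x (L s v) ≠ s := by
        intro h
        have := h72_sy_spec hL x (L s v)
        rw [h] at this
        exact hx ((L s).injective this)
      have h3 := h72_three M hM hjM h1 h2
      refine le_trans ?_ h3
      rw [mul_assoc]
      refine Nat.mul_le_mul_right _ (h72_sum_le M j _ _ ?_)
      rintro Y ⟨ha, -, hb, hc⟩
      intro y hy
      simp only [Finset.mem_insert, Finset.mem_singleton] at hy
      rcases hy with rfl | rfl | rfl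
      · exact ha
      · exact hb
      · exact hc
  rw [e1]
  refine Nat.le_of_mul_le_mul_right (c := M.card * n ^ 2) ?_ (Nat.mul_pos hMc (pow_pos hn 2))
  rw [Finset.sum_mul]
  calc ∑ s ∈ M, (∑ v : Fin n, ∑ x : Fin n, ∑ Y ∈ M.powersetCard j,
        if s ∈ Y ∧ x ≠ v ∧ h72_sy L v (L s x) ∈ Y ∧ h72_sy L x (L s v) ∈ Y then 1 else 0) *
          (M.card * n ^ 2) ≤ ∑ s ∈ M, n ^ 2 * K := by
        refine Finset.sum_le_sum fun s _ => ?_
        rw [Finset.sum_mul]
        calc ∑ v : Fin n, (∑ x : Fin n, ∑ Y ∈ M.powersetCard j,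
            if s ∈ Y ∧ x ≠ v ∧ h72_sy L v (L s x) ∈ Y ∧ h72_sy L x (L s v) ∈ Y then 1 else 0) *
              (M.card * n ^ 2) ≤ ∑ v : Fin n, n * K := by
              refine Finset.sum_le_sum fun v _ => ?_
              rw [Finset.sum_mul]
              calc _ ≤ ∑ x : Fin n, K := Finset.sum_le_sum fun x _ => e3 s v x
                _ = n * K := by simp
          _ = n ^ 2 * K := by simp; ring
    _ = K * (M.card * n ^ 2) := by simp; ring

theorem av_B {n : ℕ} {L : Fin n → Equiv.Perm (Fin n)} (hL : L ∈ ls n) (M : Finset (Fin n))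
    (hM : n ≤ 2 * (M.card - 1)) {j : ℕ} (hj : 1 ≤ j) (hjM : j ≤ M.card) :
    av' M j (fun Y => (∑ s ∈ Y, ∑ v, (Bv (sg L Y) (L s) v : ℝ)) / j) ≤
      4 * (j : ℝ) ^ 2 + 2 * j * n := by
  have hC : (0 : ℝ) < (M.card.choose j : ℝ) := by exact_mod_cast Nat.choose_pos hjM
  have hj' : (0 : ℝ) < j := by exact_mod_cast hj
  unfold av'
  rw [div_le_iff₀ hC, ← Finset.sum_div, div_le_iff₀ hj']
  have h := h72_key_B hL M hM hj hjM
  have h' : ((∑ Y ∈ M.powersetCard j, ∑ s ∈ Y, ∑ v, Bv (sg L Y) (L s) v : ℕ) : ℝ) ≤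
      ((M.card.choose j * j * (4 * j ^ 2 + 2 * j * n) : ℕ) : ℝ) := by exact_mod_cast h
  push_cast at h'
  calc _ ≤ _ := h'
    _ = _ := by ring

/-! ## The cycles of the second kind -/

theorem h72_key_C {n : ℕ} {L : Fin n → Equiv.Perm (Fin n)} (hL : L ∈ ls n)
    (M : Finset (Fin n)) (hM : n ≤ 2 * (M.card - 1)) {j : ℕ} (hj : 1 ≤ j) (hjM : j ≤ M.card) :
    ∑ Y ∈ M.powersetCard j, ∑ s ∈ Y, ∑ v, Cv (sg L Y) (L s) v ≤
      M.card.choose j * j * (8 * j ^ 3 + 4 * j ^ 2) := by
  have hMc : 0 < M.card := lt_of_lt_of_le hj hjM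
  have hn : 0 < n := by
    obtain ⟨x, _⟩ := Finset.card_pos.1 hMc
    exact x.pos
  set A := M.card.choose j * j * (8 * j ^ 3) with hA
  set B := M.card.choose j * j * (4 * j ^ 2) with hB
  have e1 : ∑ Y ∈ M.powersetCard j, ∑ s ∈ Y, ∑ v, Cv (sg L Y) (L s) v =
      ∑ s ∈ M, ∑ v : Fin n, ∑ w : Fin n, ∑ x : Fin n, ∑ Y ∈ M.powersetCard j,
        if s ∈ Y ∧ (w ≠ L s v ∧ h72_sy L v w ∈ Y) ∧
          (x ≠ v ∧ L s x ≠ w ∧ h72_sy L x w ∈ Y ∧ h72_sy L v (L s x) ∈ Y) then 1 else 0 := by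
    have e2 : ∀ Y ∈ M.powersetCard j, ∑ s ∈ Y, ∑ v, Cv (sg L Y) (L s) v =
        ∑ s ∈ M, ∑ v : Fin n, ∑ w : Fin n, ∑ x : Fin n,
        if s ∈ Y ∧ (w ≠ L s v ∧ h72_sy L v w ∈ Y) ∧
          (x ≠ v ∧ L s x ≠ w ∧ h72_sy L x w ∈ Y ∧ h72_sy L v (L s x) ∈ Y) then 1 else 0 := by
      intro Y hY
      rw [mem_powersetCard] at hY
      rw [h72_sum_mem hY.1]
      refine Finset.sum_congr rfl fun s _ => ?_
      by_cases hs : s ∈ Y
      · rw [if_pos hs]
        refine Finset.sum_congr rfl fun v _ => ?_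
        unfold Cv
        rw [h72_sum_mem (Finset.subset_univ _)]
        refine Finset.sum_congr rfl fun w _ => ?_
        by_cases hw : w ∈ (sg L Y v).erase (L s v)
        · rw [if_pos hw]
          rw [Finset.mem_erase, h72_mem_sg hL] at hw
          rw [card_filter]
          refine Finset.sum_congr rfl fun x _ => ?_
          simp only [h72_mem_sg hL, hs, true_and, hw.1, hw.2, ne_eq, not_false_eq_true]
        · rw [if_neg hw]
          rw [Finset.mem_erase, h72_mem_sg hL] at hw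
          symm
          refine Finset.sum_eq_zero fun x _ => if_neg ?_
          rintro ⟨-, h, -⟩
          exact hw h
      · rw [if_neg hs]
        simp [hs]
    rw [Finset.sum_congr rfl e2, Finset.sum_comm]
    refine Finset.sum_congr rfl fun s _ => ?_
    rw [Finset.sum_comm]
    refine Finset.sum_congr rfl fun v _ => ?_
    rw [Finset.sum_comm]
    refine Finset.sum_congr rfl fun w _ => ?_
    rw [Finset.sum_comm]
  have e3 : ∀ s v w x : Fin n, (∑ Y ∈ M.powersetCard j,
      if s ∈ Y ∧ (w ≠ L s v ∧ h72_sy L v w ∈ Y) ∧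
          (x ≠ v ∧ L s x ≠ w ∧ h72_sy L x w ∈ Y ∧ h72_sy L v (L s x) ∈ Y) then 1 else 0) *
      (M.card * n ^ 3) ≤ A + if w = L (h72_sy L v (L s x)) x then B * n else 0 := by
    intro s v w x
    by_cases hx : x = v
    · rw [h72_sum_zero M j _ fun Y h => h.2.2.1 hx]
      simp
    by_cases hw : w = L s v
    · rw [h72_sum_zero M j _ fun Y h => h.2.1.1 hw]
      simp
    by_cases hxw : L s x = w
    · rw [h72_sum_zero M j _ fun Y h => h.2.2.2.1 hxw]
      simp
    set s₁ := h72_sy L v (L s x) with hs₁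
    set s₂ := h72_sy L x w with hs₂
    set s₃ := h72_sy L v w with hs₃
    have f1 : L s₁ v = L s x := h72_sy_spec hL v (L s x)
    have f2 : L s₂ x = w := h72_sy_spec hL x w
    have f3 : L s₃ v = w := h72_sy_spec hL v w
    have h1 : s₁ ≠ s := by
      intro h
      rw [h] at f1
      exact hx ((L s).injective f1).symm
    have h2 : s₂ ≠ s := by
      intro h
      rw [h] at f2
      exact hxw f2
    have h3 : s₃ ≠ s := by
      intro h
      rw [h] at f3
      exact hw f3.symm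
    have h31 : s₃ ≠ s₁ := by
      intro h
      rw [h] at f3
      exact hxw (f1.symm.trans f3)
    have h32 : s₃ ≠ s₂ := by
      intro h
      rw [h] at f3
      exact hx ((L s₂).injective (f2.trans f3.symm))
    have hsub : (∑ Y ∈ M.powersetCard j,
        if s ∈ Y ∧ (w ≠ L s v ∧ s₃ ∈ Y) ∧
          (x ≠ v ∧ L s x ≠ w ∧ s₂ ∈ Y ∧ s₁ ∈ Y) then 1 else 0) ≤
        h72_F M j {s, s₃, s₁, s₂} := by
      refine h72_sum_le M j _ _ ?_
      rintro Y ⟨ha, ⟨-, hb⟩, -, -, hc, hd⟩
      intro y hy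
      simp only [Finset.mem_insert, Finset.mem_singleton] at hy
      rcases hy with rfl | rfl | rfl | rfl
      · exact ha
      · exact hb
      · exact hd
      · exact hc
    refine (Nat.mul_le_mul_right _ hsub).trans ?_
    by_cases h12 : s₁ = s₂
    · have hweq : w = L s₁ x := by rw [h12]; exact f2.symm
      rw [if_pos hweq]
      have hset : ({s, s₃, s₁, s₂} : Finset (Fin n)) = {s, s₃, s₁} := by
        rw [← h12]
        simp
      have hc : ({s, s₃, s₁} : Finset (Fin n)).card = 2 + 1 := by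
        rw [Finset.card_eq_three.2 ⟨s, s₃, s₁, h3.symm, h1.symm, h31, rfl⟩]
      have := h72_F_le M _ hM hjM hc
      rw [hset]
      calc h72_F M j {s, s₃, s₁} * (M.card * n ^ 3)
          = (h72_F M j {s, s₃, s₁} * M.card * n ^ 2) * n := by ring
        _ ≤ (M.card.choose j * j * (2 * j) ^ 2) * n := Nat.mul_le_mul_right _ this
        _ = B * n := by rw [hB]; ring
        _ ≤ A + B * n := Nat.le_add_left _ _
    · have hc : ({s, s₃, s₁, s₂} : Finset (Fin n)).card = 3 + 1 := by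
        rw [Finset.card_insert_of_notMem, Finset.card_eq_three.2 ⟨s₃, s₁, s₂, h31, h32, h12, rfl⟩]
        simp only [Finset.mem_insert, Finset.mem_singleton, not_or]
        exact ⟨h3.symm, h1.symm, h2.symm⟩
      have := h72_F_le M _ hM hjM hc
      calc h72_F M j {s, s₃, s₁, s₂} * (M.card * n ^ 3)
          = h72_F M j {s, s₃, s₁, s₂} * M.card * n ^ 3 := by ring
        _ ≤ M.card.choose j * j * (2 * j) ^ 3 := this
        _ = A := by rw [hA]; ring
        _ ≤ A + _ := Nat.le_add_right _ _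
  rw [e1]
  refine Nat.le_of_mul_le_mul_right (c := M.card * n ^ 3) ?_ (Nat.mul_pos hMc (pow_pos hn 3))
  rw [Finset.sum_mul]
  have e4 : ∀ s v : Fin n, (∑ w : Fin n, ∑ x : Fin n, ∑ Y ∈ M.powersetCard j,
        if s ∈ Y ∧ (w ≠ L s v ∧ h72_sy L v w ∈ Y) ∧
          (x ≠ v ∧ L s x ≠ w ∧ h72_sy L x w ∈ Y ∧ h72_sy L v (L s x) ∈ Y) then 1 else 0) *
      (M.card * n ^ 3) ≤ n ^ 2 * (A + B) := by
    intro s v
    rw [Finset.sum_mul]
    calc _ ≤ ∑ w : Fin n, ∑ x : Fin n,
          (A + if w = L (h72_sy L v (L s x)) x then B * n else 0) := by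
          refine Finset.sum_le_sum fun w _ => ?_
          rw [Finset.sum_mul]
          exact Finset.sum_le_sum fun x _ => e3 s v w x
      _ = ∑ x : Fin n, ∑ w : Fin n,
          (A + if w = L (h72_sy L v (L s x)) x then B * n else 0) := Finset.sum_comm
      _ = ∑ x : Fin n, (n * A + B * n) := by
          refine Finset.sum_congr rfl fun x _ => ?_
          rw [Finset.sum_add_distrib]
          simp
      _ = n ^ 2 * (A + B) := by simp; ring
  calc _ ≤ ∑ s ∈ M, n ^ 3 * (A + B) := by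
        refine Finset.sum_le_sum fun s _ => ?_
        rw [Finset.sum_mul]
        calc _ ≤ ∑ v : Fin n, n ^ 2 * (A + B) := Finset.sum_le_sum fun v _ => e4 s v
          _ = n ^ 3 * (A + B) := by simp; ring
    _ = M.card.choose j * j * (8 * j ^ 3 + 4 * j ^ 2) * (M.card * n ^ 3) := by
        rw [hA, hB]
        simp
        ring

theorem av_C {n : ℕ} {L : Fin n → Equiv.Perm (Fin n)} (hL : L ∈ ls n) (M : Finset (Fin n))
    (hM : n ≤ 2 * (M.card - 1)) {j : ℕ} (hj : 1 ≤ j) (hjM : j ≤ M.card) :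
    av' M j (fun Y => (∑ s ∈ Y, ∑ v, (Cv (sg L Y) (L s) v : ℝ)) / j) ≤
      8 * (j : ℝ) ^ 3 + 4 * (j : ℝ) ^ 2 := by
  have hC : (0 : ℝ) < (M.card.choose j : ℝ) := by exact_mod_cast Nat.choose_pos hjM
  have hj' : (0 : ℝ) < j := by exact_mod_cast hj
  unfold av'
  rw [div_le_iff₀ hC, ← Finset.sum_div, div_le_iff₀ hj']
  have h := h72_key_C hL M hM hj hjM
  have h' : ((∑ Y ∈ M.powersetCard j, ∑ s ∈ Y, ∑ v, Cv (sg L Y) (L s) v : ℕ) : ℝ) ≤
      ((M.card.choose j * j * (8 * j ^ 3 + 4 * j ^ 2) : ℕ) : ℝ) := by exact_mod_cast h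
  push_cast at h'
  calc _ ≤ _ := h'
    _ = _ := by ring

end Pool.Agent.Helper84.TL
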